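import Pool.Agent.H52.XH.Targets

/-!
# COH: definable subsets cohere
-/

open Ordinal Cardinal Order Set
open scoped ZFSet

universe u

namespace Pool.Agent.H13.XH

open _root_.HD Pool.Agent.H54.WM Pool.Agent.H52.XH

theorem pf_COH (hUB : Pool.Agent.H52.XH.T_UB.{u}) (hREG : Pool.Agent.H52.XH.T_REG.{u}) : T_COH.{u} := by
  intro κ lam U h2 hU R hR
  obtain ⟨hint, hne, hall⟩ := hUB κ lam U h2 hU
  have hUod : OD U := hU.fine.hod.od
  let A : ZFSet.{u} := ZFSet.sep (fun a => ZFSet.sep (fun s => R s a.rank) (PkHOD κ lam) ∈ U)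
    lam.toZFSet
  have hA : ∀ a, a ∈ A ↔ a ∈ lam.toZFSet ∧
      ZFSet.sep (fun s => R s a.rank) (PkHOD κ lam) ∈ U := fun a => ZFSet.mem_sep
  have hAsub : A ⊆ lam.toZFSet := fun a ha => ((hA a).1 ha).1
  have hAod : OD A := by
    refine OD.of_mem (P := fun v => v 0 ∈ lam.toZFSet ∧ ∃ T ∈ U, ∀ s, s ∈ T ↔
      (s ∈ PkHOD κ lam ∧ ((v 0).IsOrdinal ∧ R s (v 0).rank))) ?_ fun v => ?_
    · refine DZ.and (DZ.od (R := fun L v => v 0 ∈ L) (OD.ordinal lam) (DZ.mem 1 0)) ?_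
      refine DZ.od (R := fun W v => ∃ T ∈ W, ∀ s, s ∈ T ↔
        (s ∈ PkHOD κ lam ∧ ((v 0).IsOrdinal ∧ R s (v 0).rank))) hUod ?_
      refine DZ.exMem (R := fun T v => ∀ s, s ∈ T ↔
        (s ∈ PkHOD κ lam ∧ ((v 1).IsOrdinal ∧ R s (v 1).rank))) 0 ?_
      refine DZ.all (R := fun s v => s ∈ v 0 ↔
        (s ∈ PkHOD κ lam ∧ ((v 2).IsOrdinal ∧ R s (v 2).rank))) ?_
      refine DZ.iff (DZ.mem 0 1) (DZ.and (Pool.Agent.H4.HD.FU.dz_pk κ lam 0) ?_)
      exact hR.ren (fun n => if n = 0 then 0 else 3)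
    · rw [hA]
      constructor
      · rintro ⟨h1, T, hT, h3⟩
        refine ⟨h1, ?_⟩
        have : ZFSet.sep (fun s => R s (v 0).rank) (PkHOD κ lam) = T := by
          ext s
          obtain ⟨b, -, hb⟩ := mem_toZFSet_iff.1 h1
          rw [ZFSet.mem_sep, h3]
          exact ⟨fun h => ⟨h.1, by rw [← hb]; exact ZFSet.isOrdinal_toZFSet b, h.2⟩,
            fun h => ⟨h.1, h.2.2⟩⟩
        rw [this]
        exact hT
      · rintro ⟨h1, h3⟩
        obtain ⟨b, -, hb⟩ := mem_toZFSet_iff.1 h1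
        refine ⟨h1, _, h3, fun s => ?_⟩
        rw [ZFSet.mem_sep]
        exact ⟨fun h => ⟨h.1, by rw [← hb]; exact ZFSet.isOrdinal_toZFSet b, h.2⟩,
          fun h => ⟨h.1, h.2.2⟩⟩
  refine ⟨A, HOD.of_sub hAod hAsub, hAsub, ?_⟩
  by_contra hS
  -- the predicates are definable
  have hdz : DZ fun v : ℕ → ZFSet.{u} => (v 1).IsOrdinal ∧
      ¬ (R (v 0) (v 1).rank ↔ (v 1).rank.toZFSet ∈ A) := by
    refine (DZ.and (DZ.ord 1) (DZ.not (DZ.iff hR (DZ.od (R := fun L v => v 1 ∈ L) hAod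
      (DZ.mem 2 0))))).congr fun v => ?_
    refine and_congr_right fun ho => not_congr ?_
    rw [ZFSet.IsOrdinal.toZFSet_rank_eq ho]
    simp only [ho, true_and]
  have hdz2 : DZ fun v : ℕ → ZFSet.{u} => ∀ a : Ordinal.{u}, a.toZFSet ∈ v 0 →
      (R (v 0) a ↔ a.toZFSet ∈ A) := by
    refine (DZ.all (R := fun x v => x ∈ v 0 → ¬ (x.IsOrdinal ∧
      ¬ (R (v 0) x.rank ↔ x.rank.toZFSet ∈ A))) (DZ.imp (DZ.mem 0 1) (DZ.not
        (hdz.ren (fun n => if n = 0 then 1 else 0))))).congr fun v => ?_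
    constructor
    · intro h x hx hn
      obtain ⟨ho, hn⟩ := hn
      apply hn
      apply h
      rw [ZFSet.IsOrdinal.toZFSet_rank_eq ho]
      exact hx
    · intro h a ha
      by_contra hn
      refine h a.toZFSet ha ⟨ZFSet.isOrdinal_toZFSet a, ?_⟩
      rw [rank_toZFSet]
      exact hn
  obtain ⟨-, h3⟩ := hall (fun s => ∀ a : Ordinal.{u}, a.toZFSet ∈ s →
    (R s a ↔ a.toZFSet ∈ A)) hdz2
  have h4 := h3 hS
  have h5 : ZFSet.sep (fun s => ∃ a : Ordinal.{u}, a.toZFSet ∈ s ∧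
      ¬ (R s a ↔ a.toZFSet ∈ A)) (PkHOD κ lam) ∈ U := by
    have : ZFSet.sep (fun s => ∃ a : Ordinal.{u}, a.toZFSet ∈ s ∧
        ¬ (R s a ↔ a.toZFSet ∈ A)) (PkHOD κ lam) =
        ZFSet.sep (fun s => ¬ ∀ a : Ordinal.{u}, a.toZFSet ∈ s →
          (R s a ↔ a.toZFSet ∈ A)) (PkHOD κ lam) := by
      ext s
      rw [ZFSet.mem_sep, ZFSet.mem_sep]
      refine and_congr_right fun _ => ?_
      push Not
      rfl
    rw [this]
    exact h4
  obtain ⟨a, ha, h6⟩ := hREG κ lam U hU (fun s a => ¬ (R s a ↔ a.toZFSet ∈ A)) hdz h5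
  by_cases haA : a.toZFSet ∈ A
  · have h7 := ((hA _).1 haA).2
    rw [rank_toZFSet] at h7
    obtain ⟨s, hs⟩ := hne _ (hint _ h6 _ h7)
    have h8 := ZFSet.mem_inter.1 hs
    exact (ZFSet.mem_sep.1 h8.1).2 ⟨fun _ => haA, fun _ => (ZFSet.mem_sep.1 h8.2).2⟩
  · apply haA
    rw [hA, rank_toZFSet]
    refine ⟨toZFSet_mem_toZFSet_iff.2 ha, ?_⟩
    have : ZFSet.sep (fun s => R s a) (PkHOD κ lam) =
        ZFSet.sep (fun s => ¬ (R s a ↔ a.toZFSet ∈ A)) (PkHOD κ lam) := by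
      ext s
      rw [ZFSet.mem_sep, ZFSet.mem_sep]
      refine and_congr_right fun _ => ?_
      tauto
    rw [this]
    exact h6

end Pool.Agent.H13.XH
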