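import Pool.Agent.H52.XH.Targets
import Pool.Agent.H65.HD.CB

/-!
# CR: closure under a relation
-/

open Ordinal Cardinal Order Set
open scoped ZFSet

universe u

namespace Pool.Agent.H13.XH

open _root_.HD Pool.Agent.H54.WM Pool.Agent.H52.XH

theorem pf_CR : Pool.Agent.H52.XH.T_CR.{u} := by
  classical
  intro K hK hK0 R hR
  have h0 : 0 < K.ord := by
    have h1 : (ω : Ordinal.{u}) ≤ K.ord := by
      rw [← Cardinal.ord_aleph0]
      exact Cardinal.ord_le_ord.2 hK0.le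
    exact lt_of_lt_of_le omega0_pos h1
  let G : Ordinal.{u} → Ordinal.{u} → Ordinal.{u} := fun a b =>
    if h : a < K.ord ∧ b < K.ord then (hR a h.1 b h.2).choose else 0
  have hG : ∀ a < K.ord, ∀ b < K.ord, G a b < K.ord ∧ R a b (G a b) := by
    intro a ha b hb
    have h : a < K.ord ∧ b < K.ord := ⟨ha, hb⟩
    have e : G a b = (hR a h.1 b h.2).choose := dif_pos h
    rw [e]
    exact (hR a h.1 b h.2).choose_spec
  refine ⟨_, Pool.Agent.H65.HD.CB.cb K hK hK0 G (fun x hx y hy => (hG x hx y hy).1), ?_⟩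
  rintro γ ⟨hγ0, hγ⟩ hγK
  exact ⟨hγ0, fun a ha b hb => ⟨G a b, hγ a ha b hb, (hG a (ha.trans hγK) b (hb.trans hγK)).2⟩⟩

end Pool.Agent.H13.XH
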